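import Pool.Agent.W5h77.MR.Base

/-!
# Finite generation of étale motivic cohomology and matroid strata of Grassmannians

Let `n < 0`, and let `H i X = H^i(X_et, ℤ^c(n))` for the arithmetic schemes `X` (separated and of finite
type over `ℤ`). Used are the localization sequences, the splitting for `X × 𝔾_m`, and, for the last
part, transfer and the finiteness of the cohomology with finite coefficients (`IsEtaleMotivic`; all this
is known for `n < 0`).

Let `M` be the generic matrix with three rows and `m` columns. The maximal minors of `(I | M)` are, up
to sign, the minors of `M` of all sizes; they are the Plücker coordinates on the affine chart of the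
Grassmannian of subspaces of rank `3` in the space of rank `3 + m` where the first coordinate is
invertible. The following are equivalent:

1. the groups `H i X`, `i ∈ ℤ`, are finitely generated for all arithmetic schemes `X`;
2. they are finitely generated for the open subschemes `openS ℤ m S` of the space of matrices
`𝔸^{3m}` over `ℤ` (so for schemes which are smooth over `ℤ`), for all `m` and all sets `S` of minors: the
minors in `S` are invertible;
3. they are finitely generated for the strata `cellS ℤ m S`: the minors in `S` are invertible, and all
the other minors vanish (the matroid strata of the Grassmannians, or thin Schubert cells).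

The same holds for the schemes over `ℤ/N`, e.g. over a prime field `𝔽_p`, with matrices over `ℤ/N`
(`toZ N X` is the scheme `X` over `ℤ/N` as a scheme over `ℤ`).

By the theorem of de Jong on alterations (here the principle of dévissage `Alterations`) the conditions
1-3 are equivalent to the finite generation for all proper regular schemes.

Mnëv's universality theorem and the theorem of Belkale and Brosnan (matroid strata generate the
Grothendieck ring of varieties after inverting `𝔸^1` and `𝔸^k - pt`) do not suffice here: a
localization of the Grothendieck ring means a shift of the weight, and then nothing is obtained in the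
weights near `0`. The theorem is for each weight `n` separately, and there is no shift of the weight.
The reason is that only the torus of diagonal matrices is divided out, and not the group `GL_3`.
-/

open CategoryTheory AlgebraicGeometry Pool.Agent.Y116.UV Pool.Agent.Q282.UZ Pool.Agent.W5h93.FG
  Pool.Agent.W5h77.MR

namespace Pool.Agent.Results.MP_c1eb4d_ag.MatroidStrata

/-- **Finite generation of étale motivic cohomology for all arithmetic schemes is finite generation
for the matroid strata of the Grassmannians of subspaces of rank three, and for the complements of
determinantal arrangements.** -/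
theorem result (H : ℤ → Sch ℤ → ModuleCat.{0} ℤ) (hH : IsEtaleMotivic H) :
    List.TFAE
      [∀ X : Sch ℤ, FT True X → AllFG H X,
        ∀ (m : ℕ) (S : Finset (Trp m)), AllFG H (openS ℤ m S),
        ∀ (m : ℕ) (S : Finset (Trp m)), AllFG H (cellS ℤ m S)] ∧
    (∀ N : ℕ, List.TFAE
      [∀ X : Sch (ZMod N), FT True X → AllFG H (toZ N X),
        ∀ (m : ℕ) (S : Finset (Trp m)), AllFG H (toZ N (openS (ZMod N) m S)),
        ∀ (m : ℕ) (S : Finset (Trp m)), AllFG H (toZ N (cellS (ZMod N) m S))]) ∧
    (Alterations Regular →
      ((∀ X : Sch ℤ, FT True X → IsProper X.hom → Regular X → AllFG H X) ↔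
        ∀ (m : ℕ) (S : Finset (Trp m)), AllFG H (openS ℤ m S))) := by
  have hc := clo_class hH.isLocal Pool.Agent.Q193.LT.serre_finite
  have hcl : ClosedRule True (AllFG H) := by
    intro Z X U i j hX ht hX' hU
    obtain ⟨m, h⟩ := hH.isLocal.les i j hX ht
    exact Pool.Agent.Q193.LT.LesMaps.left Pool.Agent.Q193.LT.serre_finite h hX' hU
  have h1 : List.TFAE
      [∀ X : Sch ℤ, FT True X → AllFG H X,
        ∀ (m : ℕ) (S : Finset (Trp m)), AllFG H (openS ℤ m S),
        ∀ (m : ℕ) (S : Finset (Trp m)), AllFG H (cellS ℤ m S)] :=
    all_iff short_int hc hcl
  have h2 : (∀ X : Sch ℤ, FT True X → AllFG H X) ↔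
      ∀ (m : ℕ) (S : Finset (Trp m)), AllFG H (openS ℤ m S) := h1.out 0 1
  refine ⟨h1, fun N => all_iff (short_zmod N) (clo_toZ hc) (closed_toZ hcl),
    fun hJ => Iff.trans ⟨fun h => ?_, fun h X hX _ _ => h X hX⟩ h2⟩
  exact hJ (AllFG H) (alt_finite hH.isLocal hH.transfer hH.torsion) h

end Pool.Agent.Results.MP_c1eb4d_ag.MatroidStrata
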