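import Pool.Agent.W5h68.BT.EtMain

/-!
# Finite generation of étale motivic cohomology over finite fields for systems of equations between
read-once formulas
-/

set_option autoImplicit false

open CategoryTheory AlgebraicGeometry MvPolynomial Pool.Agent.Y116.UV Pool.Agent.W5h68.SP
  Pool.Agent.W5h68.PJ Pool.Agent.W5h68.BT

namespace Pool.Agent.Results.MP_c1eb4d_ag.ProjectiveFormulas

/-- All groups `H^i(X_et, ℤ^c(n))`, `n < 0`, of the products `X` of affine schemes of finite type and of
dimension at most `N` over `k` are finitely generated. For `N = 1` this is known over finite fields `k`: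
by localization it follows from the case of products of smooth projective curves (Soulé, Geisser). -/
def Products {k : Type} [Field k] (H : ℤ → ℤ → Sch k → ModuleCat.{0} ℤ) (N : ℕ) : Prop :=
  ∀ (W : Type) [CommRing W] [Algebra k W], IsProd k N W → AllFG H (aff k W)

/-- **Finite generation of étale motivic cohomology in negative weights over a finite field `k`.**

(1) For every `N`: all groups `H^i(X_et, ℤ^c(n))`, `n < 0`, are finitely generated for the products `X` of
affine schemes of dimension at most `N` if and only if they are for all schemes of the class `Built k N`.

(2) The class `Built k N` contains all closed subschemes `h(f_1, …, f_r) = 0`, `h ∈ S`, of affine spaces,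
where `f_1, …, f_r` are polynomials in disjoint sets of variables given by read-once formulas with
quasi-homogeneous gates in at most `N + 1` variables, and the scheme `S = 0` has dimension at most `N`. It
contains all closed subschemes of projective spaces given by such equations, if `f_1, …, f_r` are
homogeneous, the elements of `S` are homogeneous for the weights `deg f_i`, and the cone `S = 0` has
dimension at most `N + 1`.

(3) As products of curves are known, all groups `H^i(X_et, ℤ^c(n))`, `n < 0`, are finitely generated for all
schemes of the class `Built k 1`, in particular for the affine and projective schemes as in (2) with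
`N = 1`; for example for the (often smooth) complete intersections `∑_i c_{l i} f_i(x_i, y_i) = 0`,
`l = 1, …, r - 2`, where `f_1, …, f_r` are binary forms of the same degree. -/
theorem result {k : Type} [Field k] [Finite k] (H : ℤ → ℤ → Sch k → ModuleCat.{0} ℤ)
    (hH : IsEtaleMotivic k H) (curves : Products H 1) :
    (∀ N : ℕ, Products H N ↔ ∀ X : Sch k, Built k N X → AllFG H X) ∧
    (∀ N : ℕ, ReadOnceSystems k N (Built k N) ∧ ProjectiveSystems k N (Built k N)) ∧
    (∀ X : Sch k, Built k 1 X → AllFG H X) ∧ ReadOnceSystems k 1 (AllFG H) ∧
    ProjectiveSystems k 1 (AllFG H) := by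
  refine ⟨fun N => ⟨fun h X hX => built_fg hH h hX, fun h W _ _ hW => ?_⟩,
    fun N => ⟨readOnce_built N, projective_built N⟩, fun X hX => built_fg hH curves hX,
    fun r σ f hf S hS => built_fg hH curves (readOnce_built 1 r σ f hf S hS),
    fun r σ f w h1 h2 h3 S h4 h5 X i h6 h7 =>
      built_fg hH curves (projective_built 1 r σ f w h1 h2 h3 S h4 h5 X i h6 h7)⟩
  have h1 := aff_isProd hW
  have h2 := aff_ft h1
  exact h _ (Built.aff h1)

end Pool.Agent.Results.MP_c1eb4d_ag.ProjectiveFormulas
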