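import Pool.Agent.W5h93.FG.Defs

/-!
# Finite generation of étale motivic cohomology and systems of bilinear equations

Let `n < 0`, and let `H i X = H^i(X_et, ℤ^c(n))` for the arithmetic schemes `X` (separated and of finite
type over `ℤ`). Used are the localization sequences, the splitting for `X × 𝔾_m`, and, for the second
part, transfer and the finiteness of the cohomology with finite coefficients (`IsEtaleMotivic`; all this
is known for `n < 0`).

The groups `H^i(X_et, ℤ^c(n))`, `i ∈ ℤ`, are finitely generated for all arithmetic schemes `X`
(quasi-projective or not, regular or not) if and only if they are finitely generated for the affine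
schemes given by the systems of bilinear equations `∑_{(i, j) ∈ E_l} x_i y_j = 0`, `l = 1, …, c`, with
at most three terms in every equation and no other coefficients than `1`. So the question for proper
regular schemes is reduced to these explicit affine schemes.

No information is lost by this reduction: by the theorem of de Jong on alterations (here a principle of
dévissage, `Alterations`: a property of arithmetic schemes which holds for all proper regular schemes,
is closed under closed-open decompositions and descends along finite flat surjective morphisms of
integral schemes holds for all arithmetic schemes) the finite generation for all proper regular schemes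
is equivalent to the one for these systems. For proper regular schemes the finite generation of all the
groups is equivalent to the finite generation of those with `i ≤ - 2 n + 1` (see the problem).

The proof: finite generation has the two-out-of-three property for a closed subscheme and its
complement, and it passes from `X × 𝔾_m` to `X`; every property of arithmetic schemes with these two
closure properties is decided by the three-term systems (`Pool.Agent.Q282.UZ.three_iff` of the
starting files).
-/

open CategoryTheory AlgebraicGeometry MvPolynomial Pool.Agent.Y116.UV Pool.Agent.Q282.UZ
  Pool.Agent.W5h93.FG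

namespace Pool.Agent.Results.MP_c1eb4d_ag.ThreeTermSystems

/-- The affine scheme over the integers given by the bilinear equations `∑_{(i, j) ∈ E_l} x_i y_j = 0`,
`l = 1, …, c`. -/
noncomputable def system {a b c : ℕ} (E : Fin c → Finset (Fin a × Fin b)) : Sch ℤ :=
  aff ℤ (MvPolynomial (Fin a ⊕ Fin b) ℤ ⧸ Ideal.span (Set.range fun l => ∑ e ∈ E l,
    (X (Sum.inl e.1) * X (Sum.inr e.2) : MvPolynomial (Fin a ⊕ Fin b) ℤ)))

/-- **Finite generation of étale motivic cohomology for all arithmetic schemes is finite generation
for the systems of bilinear equations with at most three terms.** -/
theorem result (H : ℤ → Sch ℤ → ModuleCat.{0} ℤ) (hH : IsEtaleMotivic H) :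
    ((∀ X : Sch ℤ, FT True X → AllFG H X) ↔
      ∀ (a b c : ℕ) (E : Fin c → Finset (Fin a × Fin b)), (∀ l, (E l).card ≤ 3) →
        AllFG H (system E)) ∧
    (Alterations Regular →
      ((∀ X : Sch ℤ, FT True X → IsProper X.hom → Regular X → AllFG H X) ↔
        ∀ (a b c : ℕ) (E : Fin c → Finset (Fin a × Fin b)), (∀ l, (E l).card ≤ 3) →
          AllFG H (system E))) := by
  have h1 : (∀ X : Sch ℤ, FT True X → AllFG H X) ↔
      ∀ (a b c : ℕ) (E : Fin c → Finset (Fin a × Fin b)), (∀ l, (E l).card ≤ 3) →
        AllFG H (system E) :=
    three_iff short_int (clo_class hH.isLocal Pool.Agent.Q193.LT.serre_finite)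
  refine ⟨h1, fun hJ => Iff.trans ⟨fun h => ?_, fun h X hX _ _ => h X hX⟩ h1⟩
  exact hJ (AllFG H) (alt_finite hH.isLocal hH.transfer hH.torsion) h

end Pool.Agent.Results.MP_c1eb4d_ag.ThreeTermSystems
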