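import Pool.Agent.W5h38.TW.EMain

/-!
# Finite generation of étale motivic cohomology and torus actions of complexity at most `d`

Let `X` be a closed subscheme of an affine space over `ℤ` which is stable under a split torus acting
diagonally. It is of complexity at most `d` if each stratum of `X` (given by the vanishing and
non-vanishing of the coordinates) has dimension at most `d` plus the rank of the weights of the
nonvanishing coordinates (the dimension of the orbits).

If all groups `H^i(X_et, ℤ^c(n))`, `n < 0`, are finitely generated for all arithmetic schemes of
dimension at most `d`, then also for all torus schemes of complexity at most `d`, of any dimension and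
with any singularities, and for all schemes built from them by closed-open decompositions. For `d = 1`,
where the hypothesis is known (number rings, curves over finite fields), this is unconditional.

In characteristic `p` explicit examples for `d = 1` are all closed subschemes of affine spaces over
finite fields given by `c` linearly independent equations with at most `c + 2` monomials altogether,
for instance all hypersurfaces given by polynomials with three terms, and in general, for arithmetic
schemes of dimension at most `d`, the inverse images of the cones of dimension at most `d + 1` under
monomial maps.

Proof. The strata are split off one after the other. A stratum is the spectrum of a ring `A` generated by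
units `x_i` which is graded by `ℤ ^ m`. If some last weight `v_i` is not zero, let `g` be the greatest
common divisor of the `v_i` and `y` a monomial of last weight `g`; then `A = B[t, 1 / t]`, where
`B = A / (y - 1)`, by `x_i ↦ x_i t ^ (v_i / g)`, and `B` is graded by `ℤ ^ (m - 1)`, of dimension and of
rank smaller by one. By homotopy invariance the weight `n` of `B[t, 1 / t]` is determined by the weights
`n` and `n - 1` of `B`.
-/

set_option autoImplicit false

open CategoryTheory AlgebraicGeometry MvPolynomial Pool.Agent.Y116.UV Pool.Agent.W5h38.TV
  Pool.Agent.W5h38.TW

namespace Pool.Agent.Results.MP_c1eb4d_ag.TorusActions

/-- **Étale motivic cohomology and torus actions.** Let `H a i X` be the groups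
`H^i(X_et, ℤ^c(- 1 - a))` of the arithmetic schemes.

(1) For every `d` these groups are finitely generated for all arithmetic schemes of dimension at most
`d` if and only if they are for all schemes built from torus schemes of complexity at most `d`.

(2) They are finitely generated for all schemes built from torus schemes of complexity at most `1`.

(3) If they are finitely generated for all arithmetic schemes of dimension at most `d`, then also for the
inverse images of the cones of dimension at most `d + 1` under the monomial maps between affine spaces
over finite fields, and for the systems of `c` linearly independent equations with at most `c + d + 1`
monomials over finite fields, both also with additional equations with at most two terms; in particular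
for `d = 1`. -/
theorem result (H : ℕ → ℤ → Sch ℤ → ModuleCat.{0} ℤ) (hH : IsEtaleMotivicAll H) :
    (∀ d : ℕ, FGDim H d ↔ ∀ X : Sch ℤ, Built d X → AllFG H X) ∧
      (∀ X : Sch ℤ, Built 1 X → AllFG H X) ∧
      (∀ d : ℕ, FGDim H d → Few H d) ∧ Few H 1 := by
  have key : ∀ d : ℕ, FGDim H d ↔ ∀ X : Sch ℤ, Built d X → AllFG H X := fun d =>
    wk_dim_iff (wk_etale hH) d
  have h1 : FGDim H 1 := fun X hX hd => hH.low X hX (by exact_mod_cast hd)
  exact ⟨key, (key 1).mp h1, fun d => few hH d, few hH 1 h1⟩

end Pool.Agent.Results.MP_c1eb4d_ag.TorusActions
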